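import Pool.Agent.Helper54_Exc.Stmts

/-! Basic properties of the coalescence function. -/

namespace Pool.Agent.Helper54Exc

open Filter Topology Pool.Agent.Helper28Excl

set_option linter.unusedSectionVars false
set_option linter.unusedVariables false

lemma Phi_apply (N : ℕ) (z : Config × Config) : Phi N z = (1 / 2 : ℝ) * cnt sd N z := rfl

lemma Phi_nonneg (N : ℕ) (z : Config × Config) : 0 ≤ Phi N z := by
  rw [Phi_apply]
  have := cnt_nonneg sd_nonneg N z
  positivity

lemma Cyl_Phi (N : ℕ) : Cyl XX N (Phi N) := by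
  intro z z' h
  rw [Phi_apply, Phi_apply, Cyl_cnt sd N z z' h]

/-- The variation of `Phi` along a mark. -/
lemma Phi_T {N : ℕ} {u v : ℤ} (hu : u ∈ box N) (hv : v ∈ box N) (z : Config × Config) :
    Phi N (XX.T u v z) - Phi N z = - opp u v z := by
  rw [Phi_apply, Phi_apply, ← mul_sub]
  by_cases huv : u = v
  · subst huv
    rw [XX_T, jmp_self, jmp_self, opp_self]
    simp
  · rw [cnt_T_in sd huv hu hv, sd_in, ← opp_apply]
    ring

variable (k : Kern)

lemma LN_Phi (N : ℕ) (z : Config × Config) :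
    LN XX k N (Phi N) z = - ∑ q ∈ box N ×ˢ box N, k.p (q.2 - q.1) * opp q.1 q.2 z := by
  rw [LN_apply, ← Finset.sum_neg_distrib]
  refine Finset.sum_congr rfl fun q hq => ?_
  rw [Finset.mem_product] at hq
  rw [Phi_T hq.1 hq.2]
  ring

lemma LN_Phi_le (N : ℕ) (z : Config × Config) : LN XX k N (Phi N) z ≤ 0 := by
  rw [LN_Phi, neg_nonpos]
  exact Finset.sum_nonneg fun q _ => mul_nonneg (k.nonneg _) (opp_nonneg _ _ _)

lemma V_nonneg (N : ℕ) {t : ℝ} (ht : 0 ≤ t) (z : Config × Config) : 0 ≤ V k N t z :=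
  Rop_nonneg XX k ht (Phi_nonneg N) z

lemma V_le_Phi (N : ℕ) {t : ℝ} (ht : 0 ≤ t) (z : Config × Config) : V k N t z ≤ Phi N z :=
  Rop_le_self XX k ht (LN_Phi_le k N) z

lemma V_anti (N : ℕ) {s t : ℝ} (hs : 0 ≤ s) (hst : s ≤ t) (z : Config × Config) :
    V k N t z ≤ V k N s z :=
  Rop_anti XX k hs hst (LN_Phi_le k N) z

/-- The swap of the two configurations. -/
def sw : C(Config × Config, Config × Config) := ⟨Prod.swap, continuous_swap⟩

lemma sw_T (u v : ℤ) (z : Config × Config) : sw (XX.T u v z) = XX.T u v (sw z) := rfl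

lemma V_symm (N : ℕ) {t : ℝ} (ht : 0 ≤ t) (a b : Config) :
    V k N t (a, b) = V k N t (b, a) := by
  have h1 : pull sw (Phi N) = Phi N := by
    ext z
    rw [pull_apply, Phi_apply, Phi_apply, cnt_apply, cnt_apply]
    congr 1
    refine Finset.sum_congr rfl fun x _ => ?_
    change sd (z.2 x) (z.1 x) = sd (z.1 x) (z.2 x)
    unfold sd
    simp only [eq_comm]
  have h2 := Rop_pull (J := XX) (J' := XX) (k := k) sw sw_T N ht (Phi N)
  rw [h1] at h2
  have h3 := congrArg (fun s : C(Config × Config, ℝ) => s (b, a)) h2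
  exact h3.symm

lemma opp_sum_le {R N : ℕ} (hRN : R ≤ N) {t r : ℝ} (ht : 0 < t) (hr : 0 < r)
    (hp : ∀ n : ℕ, 1 ≤ n → n ≤ 2 * R → r ≤ k.p (-(n : ℤ))) (z : Config × Config) :
    Rop XX k N t (∑ q ∈ box R ×ˢ box R, opp q.1 q.2) z ≤ 2 / (r * t) * Phi N z := by
  -- pointwise comparison
  have h1 : ∀ z : Config × Config, (∑ q ∈ box R ×ˢ box R, opp q.1 q.2 : C(Config × Config, ℝ)) z
      ≤ (-(2 / r)) * LN XX k N (Phi N) z := by
    intro z
    rw [LN_Phi, ContinuousMap.coe_sum, Finset.sum_apply]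
    have h2 : ∀ q : ℤ × ℤ, q ∈ box R ×ˢ box R → opp q.1 q.2 z
        ≤ (1 / r) * (k.p (q.2 - q.1) * opp q.1 q.2 z)
          + (1 / r) * (k.p (q.1 - q.2) * opp q.2 q.1 z) := by
      intro q hq
      rw [Finset.mem_product, mem_box, mem_box] at hq
      have ho := opp_nonneg q.1 q.2 z
      have hoc : opp q.2 q.1 z = opp q.1 q.2 z := by rw [opp_comm]
      rw [hoc]
      have hn1 := k.nonneg (q.2 - q.1)
      have hn2 := k.nonneg (q.1 - q.2)
      have hir : 0 < 1 / r := by positivity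
      rcases lt_trichotomy q.1 q.2 with h | h | h
      · obtain ⟨n, hn⟩ : ∃ n : ℕ, q.2 - q.1 = n := ⟨(q.2 - q.1).toNat, by omega⟩
        have h3 := hp n (by omega) (by
          have h4 := abs_le.mp hq.1
          have h5 := abs_le.mp hq.2
          omega)
        have h6 : q.1 - q.2 = -(n : ℤ) := by omega
        rw [h6]
        have h7 : opp q.1 q.2 z = (1 / r) * (r * opp q.1 q.2 z) := by field_simp
        have h8 : (1 / r) * (r * opp q.1 q.2 z) ≤ (1 / r) * (k.p (-(n : ℤ)) * opp q.1 q.2 z) := by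
          gcongr
        have h9 : 0 ≤ (1 / r) * (k.p (q.2 - q.1) * opp q.1 q.2 z) := by positivity
        linarith
      · have : opp q.1 q.2 z = 0 := by rw [h, opp_self]
        rw [this]; simp
      · obtain ⟨n, hn⟩ : ∃ n : ℕ, q.1 - q.2 = n := ⟨(q.1 - q.2).toNat, by omega⟩
        have h3 := hp n (by omega) (by
          have h4 := abs_le.mp hq.1
          have h5 := abs_le.mp hq.2
          omega)
        have h6 : q.2 - q.1 = -(n : ℤ) := by omega
        rw [h6]
        have h7 : opp q.1 q.2 z = (1 / r) * (r * opp q.1 q.2 z) := by field_simp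
        have h8 : (1 / r) * (r * opp q.1 q.2 z) ≤ (1 / r) * (k.p (-(n : ℤ)) * opp q.1 q.2 z) := by
          gcongr
        have h9 : 0 ≤ (1 / r) * (k.p (q.1 - q.2) * opp q.1 q.2 z) := by positivity
        linarith
    refine (Finset.sum_le_sum h2).trans ?_
    rw [Finset.sum_add_distrib, ← Finset.mul_sum, ← Finset.mul_sum]
    have h3 : ∑ q ∈ box R ×ˢ box R, k.p (q.2 - q.1) * opp q.1 q.2 z
        ≤ ∑ q ∈ box N ×ˢ box N, k.p (q.2 - q.1) * opp q.1 q.2 z :=
      Finset.sum_le_sum_of_subset_of_nonneg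
        (Finset.product_subset_product (box_mono hRN) (box_mono hRN))
        fun q _ _ => mul_nonneg (k.nonneg _) (opp_nonneg _ _ _)
    have h4 : ∑ q ∈ box R ×ˢ box R, k.p (q.1 - q.2) * opp q.2 q.1 z
        = ∑ q ∈ box R ×ˢ box R, k.p (q.2 - q.1) * opp q.1 q.2 z := by
      rw [Finset.sum_product, Finset.sum_product_right]
    rw [h4]
    have h5 : 0 ≤ 1 / r := by positivity
    have h6 := mul_le_mul_of_nonneg_left h3 h5
    have h7 : (2 : ℝ) / r = 2 * (1 / r) := by ring
    rw [h7]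
    nlinarith
  have h2 := Rop_mono XX k (N := N) ht.le (g := (-(2 / r)) • LN XX k N (Phi N)) h1 z
  refine h2.trans ?_
  rw [Rop_smul, Rop_LN XX k N ht.le, ContinuousMap.smul_apply, smul_eq_mul]
  have h3 := Rop_eq_apply XX k N ht.le (Phi N) z
  have h4 : LN XX k N (Rop XX k N t (Phi N)) z = (Rop XX k N t (Phi N) z - Phi N z) / t := by
    rw [h3]; field_simp
  rw [h4]
  have h5 := V_nonneg k N ht.le z
  have h6 : -(2 / r) * ((Rop XX k N t (Phi N) z - Phi N z) / t)
      = 2 / (r * t) * (Phi N z - V k N t z) := by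
    unfold V
    field_simp
    ring
  rw [h6]
  refine mul_le_mul_of_nonneg_left (by linarith) (by positivity)

lemma pc_apply (R : ℕ) (η : Config) : pc R η = ∑ x ∈ box R, ev x η := by
  unfold pc
  rw [ContinuousMap.coe_sum, Finset.sum_apply]

lemma hR_fst (R N : ℕ) {t : ℝ} (ht : 0 ≤ t) (z : Config × Config) :
    Rop XX k N t (pull pfst (pc R)) z = hR k R N t z.1 := by
  have := Rop_pull (J := X) (J' := XX) (k := k) pfst pfst_T N ht (pc R)
  rw [this]
  rfl

lemma hR_snd (R N : ℕ) {t : ℝ} (ht : 0 ≤ t) (z : Config × Config) :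
    Rop XX k N t (pull psnd (pc R)) z = hR k R N t z.2 := by
  have := Rop_pull (J := X) (J' := XX) (k := k) psnd psnd_T N ht (pc R)
  rw [this]
  rfl

lemma pc_sub (R : ℕ) (a b : Config) :
    pc R a - pc R b = ∑ x ∈ box R, (sm (a x) (b x) - sp (a x) (b x)) := by
  rw [pc_apply, pc_apply, ← Finset.sum_sub_distrib]
  refine Finset.sum_congr rfl fun x _ => ?_
  rw [ev_apply, ev_apply]
  cases a x <;> cases b x <;> simp [sm, sp]

lemma sd_eq (a b : Bool) : sd a b = sm a b + sp a b := by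
  cases a <;> cases b <;> simp [sd, sm, sp]

lemma abs_pc_sub_le {R N : ℕ} (h : R ≤ N) (z : Config × Config) :
    |pc R z.1 - pc R z.2| ≤ cnt sd N z := by
  rw [pc_sub, cnt_apply]
  refine (Finset.abs_sum_le_sum_abs _ _).trans ?_
  have h1 : ∀ x ∈ box R, |sm (z.1 x) (z.2 x) - sp (z.1 x) (z.2 x)| ≤ sd (z.1 x) (z.2 x) := by
    intro x _
    cases z.1 x <;> cases z.2 x <;> simp [sd, sm, sp]
  refine (Finset.sum_le_sum h1).trans ?_
  exact Finset.sum_le_sum_of_subset_of_nonneg (box_mono h) fun x _ _ => sd_nonneg _ _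

lemma LN_cnt_le (N : ℕ) (z : Config × Config) : LN XX k N (cnt sd N) z ≤ 0 := by
  have h1 := LN_Phi_le k N z
  have h2 : cnt sd N = (2 : ℝ) • Phi N := by
    unfold Phi
    rw [smul_smul]
    norm_num
  rw [LN_apply] at h1 ⊢
  have h3 : ∀ q ∈ box N ×ˢ box N, k.p (q.2 - q.1) * (cnt sd N (XX.T q.1 q.2 z) - cnt sd N z)
      = 2 * (k.p (q.2 - q.1) * (Phi N (XX.T q.1 q.2 z) - Phi N z)) := by
    intro q _
    rw [Phi_apply, Phi_apply]
    ring
  rw [Finset.sum_congr rfl h3, ← Finset.mul_sum]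
  linarith

lemma abs_hR_sub_le {R N : ℕ} (hRN : R ≤ N) {t : ℝ} (ht : 0 ≤ t) (a b : Config) :
    |hR k R N t a - hR k R N t b| ≤ cnt sd N (a, b) := by
  have h1 : ∀ z : Config × Config, (pull pfst (pc R) - pull psnd (pc R)) z ≤ cnt sd N z :=
    fun z => (le_abs_self _).trans (abs_pc_sub_le hRN z)
  have h2 : ∀ z : Config × Config, (pull psnd (pc R) - pull pfst (pc R)) z ≤ cnt sd N z :=
    fun z => by
      have := (neg_le_abs (pc R z.1 - pc R z.2)).trans (abs_pc_sub_le hRN z)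
      change pc R z.2 - pc R z.1 ≤ _
      linarith
  have h3 := (Rop_mono XX k (N := N) ht h1 (a, b)).trans (Rop_le_self XX k ht (LN_cnt_le k N) _)
  have h4 := (Rop_mono XX k (N := N) ht h2 (a, b)).trans (Rop_le_self XX k ht (LN_cnt_le k N) _)
  rw [Rop_sub XX k N ht, ContinuousMap.sub_apply, hR_fst k R N ht, hR_snd k R N ht] at h3 h4
  rw [abs_le]
  constructor <;> simp only at h3 h4 <;> linarith

lemma pc_jmp {N : ℕ} {u v : ℤ} (hu : u ∈ box N) (hv : v ∈ box N) (η : Config) :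
    pc N (jmp u v η) = pc N η := by
  by_cases huv : u = v
  · subst huv; rw [jmp_self]
  have h := cnt_T_in (fun a _ => if a then (1 : ℝ) else 0) (K := N) huv hu hv (η, η)
  rw [cnt_apply, cnt_apply] at h
  simp only [XX_T] at h
  rw [pc_apply, pc_apply]
  simp only [ev_apply]
  have h2 : (if (η u && η v) = true then (1 : ℝ) else 0) + (if (η u || η v) = true then 1 else 0)
      - (if η u = true then 1 else 0) - (if η v = true then 1 else 0) = 0 := by
    cases η u <;> cases η v <;> simp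
  rw [h2] at h
  exact sub_eq_zero.mp h

lemma abs_hR_sub_le_V {R N : ℕ} (hRN : R ≤ N) {t : ℝ} (ht : 0 ≤ t) (a b : Config)
    (hab : pc N a = pc N b) : |hR k R N t a - hR k R N t b| ≤ V k N t (a, b) := by
  set A : Set (Config × Config) := {z | pc N z.1 = pc N z.2} with hA
  have hAT : ∀ u ∈ box N, ∀ v ∈ box N, ∀ z ∈ A, XX.T u v z ∈ A := by
    intro u hu v hv z hz
    change pc N (jmp u v z.1) = pc N (jmp u v z.2)
    rw [pc_jmp hu hv, pc_jmp hu hv]
    exact hz
  have h0 : ∀ z ∈ A, |pc R z.1 - pc R z.2| ≤ Phi N z := by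
    intro z hz
    have h1 : pc N z.1 = pc N z.2 := hz
    have h2 : pc N z.1 - pc N z.2 = 0 := by rw [h1, sub_self]
    rw [pc_sub, Finset.sum_sub_distrib] at h2
    rw [pc_sub, Finset.sum_sub_distrib, Phi_apply, cnt_apply]
    have h3 : ∑ x ∈ box N, sd (z.1 x) (z.2 x)
        = ∑ x ∈ box N, sm (z.1 x) (z.2 x) + ∑ x ∈ box N, sp (z.1 x) (z.2 x) := by
      rw [← Finset.sum_add_distrib]
      exact Finset.sum_congr rfl fun x _ => sd_eq _ _
    have h4 : ∑ x ∈ box R, sm (z.1 x) (z.2 x) ≤ ∑ x ∈ box N, sm (z.1 x) (z.2 x) :=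
      Finset.sum_le_sum_of_subset_of_nonneg (box_mono hRN) fun x _ _ => sm_nonneg _ _
    have h5 : ∑ x ∈ box R, sp (z.1 x) (z.2 x) ≤ ∑ x ∈ box N, sp (z.1 x) (z.2 x) :=
      Finset.sum_le_sum_of_subset_of_nonneg (box_mono hRN) fun x _ _ => sp_nonneg _ _
    have h6 : 0 ≤ ∑ x ∈ box R, sm (z.1 x) (z.2 x) := Finset.sum_nonneg fun x _ => sm_nonneg _ _
    have h7 : 0 ≤ ∑ x ∈ box R, sp (z.1 x) (z.2 x) := Finset.sum_nonneg fun x _ => sp_nonneg _ _
    rw [abs_le]
    constructor <;> linarith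
  have h1 : ∀ z ∈ A, (pull pfst (pc R) - pull psnd (pc R)) z ≤ Phi N z :=
    fun z hz => (le_abs_self _).trans (h0 z hz)
  have h2 : ∀ z ∈ A, (pull psnd (pc R) - pull pfst (pc R)) z ≤ Phi N z :=
    fun z hz => by
      have := (neg_le_abs (pc R z.1 - pc R z.2)).trans (h0 z hz)
      change pc R z.2 - pc R z.1 ≤ _
      linarith
  have hz : (a, b) ∈ A := hab
  have h3 := Rop_mono_on XX k (N := N) ht hAT h1 hz
  have h4 := Rop_mono_on XX k (N := N) ht hAT h2 hz
  rw [Rop_sub XX k N ht, ContinuousMap.sub_apply, hR_fst k R N ht, hR_snd k R N ht] at h3 h4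
  rw [abs_le]
  unfold V
  constructor <;> simp only at h3 h4 <;> linarith

/-- `One` is preserved by the marks. -/
lemma One_T {N : ℕ} {c : Bool} {D : ℤ} {β o : Config} (h : One N c D β o) {u v : ℤ}
    (hu : u ∈ box N) (hv : v ∈ box N) :
    ∃ D', One N c D' (jmp u v β) (jmp u v o) := by
  obtain ⟨hD, h1, h2, h3⟩ := h
  have hβ : β = Function.update β D (!c) := by rw [← h1, Function.update_eq_self]
  have ho : X.agree N (jmp u v o) (jmp u v (Function.update β D c)) := by
    refine X.pres hu hv fun x hx => ?_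
    by_cases hxD : x = D
    · subst hxD; rw [Function.update_self, h2]
    · rw [Function.update_of_ne hxD, h3 x hx hxD]
  obtain ⟨D', ω, hD', e1, e2⟩ := jmp_update u v D β
  have hD'm : D' ∈ box N := by
    rcases hD' with h | ⟨_, h | h⟩
    · rw [h]; exact hD
    · rw [h]; exact hu
    · rw [h]; exact hv
  have e3 : jmp u v (Function.update β D c) = Function.update ω D' c := by
    cases c
    · exact e2
    · exact e1
  have e4 : jmp u v β = Function.update ω D' (!c) := by
    rw [hβ]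
    cases c
    · exact e1
    · exact e2
  refine ⟨D', hD'm, ?_, ?_, ?_⟩
  · rw [e4, Function.update_self]
  · rw [ho D' hD'm, e3, Function.update_self]
  · intro x hx hne
    rw [ho x hx, e3, e4, Function.update_of_ne hne, Function.update_of_ne hne]

lemma pc_One {R N : ℕ} (hRN : R ≤ N) {c : Bool} {D : ℤ} {β o : Config} (h : One N c D β o) :
    sgn c * (pc R o - pc R β) = if D ∈ box R then 1 else 0 := by
  obtain ⟨hD, h1, h2, h3⟩ := h
  rw [pc_apply, pc_apply, ← Finset.sum_sub_distrib]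
  by_cases hDR : D ∈ box R
  · rw [Finset.sum_eq_single_of_mem D hDR, if_pos hDR, ev_apply, ev_apply, h1, h2]
    · cases c <;> simp [sgn]
    · intro x hx hne
      rw [ev_apply, ev_apply, h3 x (box_mono hRN hx) hne, sub_self]
  · rw [if_neg hDR, Finset.sum_eq_zero, mul_zero]
    intro x hx
    have hne : x ≠ D := fun e => hDR (e ▸ hx)
    rw [ev_apply, ev_apply, h3 x (box_mono hRN hx) hne, sub_self]

lemma one_hR {R N : ℕ} (hRN : R ≤ N) {t : ℝ} (ht : 0 ≤ t) {c : Bool} {D : ℤ} {β o : Config}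
    (h : One N c D β o) : 0 ≤ sgn c * (hR k R N t o - hR k R N t β) ∧
      sgn c * (hR k R N t o - hR k R N t β) ≤ 1 := by
  set A : Set (Config × Config) := {z | ∃ D, One N c D z.1 z.2} with hA
  have hAT : ∀ u ∈ box N, ∀ v ∈ box N, ∀ z ∈ A, XX.T u v z ∈ A := by
    rintro u hu v hv z ⟨D, hz⟩
    exact One_T hz hu hv
  have hz : (β, o) ∈ A := ⟨D, h⟩
  have e : ∀ z : Config × Config, (sgn c • (pull psnd (pc R) - pull pfst (pc R))) z
      = sgn c * (pc R z.2 - pc R z.1) := fun z => rfl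
  have h1 := Rop_mono_on XX k (N := N) ht hAT (f := 0)
    (g := sgn c • (pull psnd (pc R) - pull pfst (pc R))) (fun z hz => by
      obtain ⟨D, hD⟩ := hz
      rw [e, pc_One hRN hD]
      split_ifs
      · exact zero_le_one
      · exact le_rfl) hz
  have h2 := Rop_mono_on XX k (N := N) ht hAT (g := 1)
    (f := sgn c • (pull psnd (pc R) - pull pfst (pc R))) (fun z hz => by
      obtain ⟨D, hD⟩ := hz
      rw [e, pc_One hRN hD]
      split_ifs
      · exact le_rfl
      · exact zero_le_one) hz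
  have h0 : Rop XX k N t 0 = 0 := by
    have := Rop_smul XX k N t 0 (0 : C(Config × Config, ℝ))
    simpa using this
  rw [Rop_smul, Rop_sub XX k N ht, ContinuousMap.smul_apply, ContinuousMap.sub_apply,
    hR_fst k R N ht, hR_snd k R N ht, smul_eq_mul] at h1 h2
  rw [h0] at h1
  rw [Rop_one XX k ht] at h2
  exact ⟨h1, h2⟩

theorem coa_stmt : CoaStmt where
  nonneg k N t ht z := V_nonneg k N ht z
  le_Phi k N t ht z := V_le_Phi k N ht z
  anti k N s t hs hst z := V_anti k N hs hst z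
  symm k N t ht a b := V_symm k N ht a b
  cyl k N t ht := Cyl_Rop XX k ht (Cyl_Phi N)
  opp_le k R N t r hRN ht hr hp z := opp_sum_le k hRN ht hr hp z
  abs_le_cnt k R N t hRN ht a b := abs_hR_sub_le k hRN ht a b
  abs_le_V k R N t hRN ht a b hab := abs_hR_sub_le_V k hRN ht a b hab
  one_le k R N t hRN ht c D β o h := one_hR k hRN ht h

end Pool.Agent.Helper54Exc
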