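import Pool.Agent.Helper28_Excl.Defs

/-! Explicit kernels with power-law left tails. -/

namespace Pool.Agent.Helper54Exc

/-- The zeta series `∑ n ^ (-s)`, `n ≥ 1`. -/
noncomputable def zt (s : ℝ) : ℝ := ∑' n : ℕ, ((n : ℝ) + 1) ^ (-s)

/-- The normalising constant of the kernel `pb b`. -/
noncomputable def cb (b : ℝ) : ℝ := 1 / (2 * (zt b + zt (b - 1)))

/-- The explicit kernel: `cb b * n ^ (-b)` at `-n` for `n ≥ 1`, the remaining mass at `1`. -/
noncomputable def pb (b : ℝ) (x : ℤ) : ℝ :=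
  if x < 0 then cb b * |(x : ℝ)| ^ (-b) else if x = 1 then 1 - cb b * zt b else 0

end Pool.Agent.Helper54Exc
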