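import Pool.Agent.Helper11_Exc.Tri

/-! PNT: the pointwise inequalities. -/

namespace Pool.Agent.Helper54Exc

open Filter Topology Pool.Agent.Helper28Excl

set_option linter.unusedSectionVars false
set_option linter.unusedVariables false

/-- Counting functions of indicators are natural numbers. -/
lemma cnt_nat {s : Bool → Bool → ℝ} (hs : ∀ a c, s a c = 0 ∨ s a c = 1) (K : ℕ)
    (z : Config × Config) : ∃ n : ℕ, cnt s K z = n := by
  rw [cnt_apply]
  induction box K using Finset.induction_on with
  | empty => exact ⟨0, by simp⟩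
  | insert a S ha ih =>
    obtain ⟨n, hn⟩ := ih
    rw [Finset.sum_insert ha, hn]
    rcases hs (z.1 a) (z.2 a) with h | h
    · exact ⟨n, by rw [h, zero_add]⟩
    · exact ⟨n + 1, by rw [h]; push_cast; ring⟩

lemma sd_zo (a c : Bool) : sd a c = 0 ∨ sd a c = 1 := by
  unfold sd; split_ifs <;> simp

lemma sm_zo (a c : Bool) : sm a c = 0 ∨ sm a c = 1 := by
  unfold sm; split_ifs <;> simp

lemma bs_true (z : Config × Config) : bs true z = z.1 := rfl
lemma bs_false (z : Config × Config) : bs false z = z.2 := rfl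
lemma ot_true (z : Config × Config) : ot true z = z.2 := rfl
lemma ot_false (z : Config × Config) : ot false z = z.1 := rfl

lemma Bd_apply (R N : ℕ) (z : Config × Config) :
    Bd R N z = kap R z + 8 * exc N z + 8 * cnt sm N z := rfl

/-- Either exactly one discrepancy, in the window, of the right sign, or the penalty is large. -/
lemma good_or_bad {R N : ℕ} (hRN : R ≤ N) (z : Config × Config) :
    (∀ c, ∃ D ∈ box R, One N c D (bs c z) (ot c z)) ∨
      1 ≤ kap R z + exc N z + cnt sm N z := by
  obtain ⟨a, ha⟩ := cnt_nat sd_zo R z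
  obtain ⟨b, hb⟩ := cnt_nat sd_zo N z
  obtain ⟨m, hm⟩ := cnt_nat sm_zo N z
  have h1 := kap_nonneg R z
  have h2 := exc_nonneg N z
  have h3 := cnt_nonneg sm_nonneg N z
  by_cases ha0 : a = 0
  · right
    have : kap R z = 1 := by
      rw [kap_apply, ha, ha0]
      simp
    linarith
  by_cases hb2 : 2 ≤ b
  · right
    have : 1 ≤ exc N z := by
      rw [exc_apply, hb]
      have : (2 : ℝ) ≤ b := by exact_mod_cast hb2
      exact le_max_of_le_left (by linarith)
    linarith
  by_cases hm0 : m = 0
  swap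
  · right
    have : (1 : ℝ) ≤ m := by exact_mod_cast Nat.one_le_iff_ne_zero.mpr hm0
    linarith
  left
  -- the discrepancy
  have hex : ∃ D ∈ box R, sd (z.1 D) (z.2 D) ≠ 0 := by
    by_contra hcon
    push Not at hcon
    have : cnt sd R z = 0 := by
      rw [cnt_apply]
      exact Finset.sum_eq_zero hcon
    rw [this] at ha
    exact ha0 (by exact_mod_cast ha.symm)
  obtain ⟨D, hD, hDne⟩ := hex
  have hD1 : sd (z.1 D) (z.2 D) = 1 := (sd_zo _ _).resolve_left hDne
  have hDN := box_mono hRN hD
  have hoth : ∀ x ∈ box N, x ≠ D → z.1 x = z.2 x := by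
    intro x hx hne
    by_contra hcon
    have hx1 : sd (z.1 x) (z.2 x) = 1 := by unfold sd; rw [if_neg hcon]
    have hsub : ({x, D} : Finset ℤ) ⊆ box N := by
      intro y hy
      rw [Finset.mem_insert, Finset.mem_singleton] at hy
      rcases hy with rfl | rfl
      · exact hx
      · exact hDN
    have h4 : ∑ y ∈ ({x, D} : Finset ℤ), sd (z.1 y) (z.2 y) ≤ cnt sd N z := by
      rw [cnt_apply]
      exact Finset.sum_le_sum_of_subset_of_nonneg hsub fun y _ _ => sd_nonneg _ _
    rw [Finset.sum_pair hne, hx1, hD1, hb] at h4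
    have h5 : (b : ℝ) < 2 := by exact_mod_cast not_le.mp hb2
    linarith
  have hsm : sm (z.1 D) (z.2 D) = 0 := by
    have h4 : sm (z.1 D) (z.2 D) ≤ cnt sm N z := by
      rw [cnt_apply]
      exact Finset.single_le_sum (f := fun x => sm (z.1 x) (z.2 x)) (fun x _ => sm_nonneg _ _) hDN
    rw [hm, hm0] at h4
    have h5 := sm_nonneg (z.1 D) (z.2 D)
    push_cast at h4
    linarith
  have hval : z.1 D = false ∧ z.2 D = true := by
    revert hD1 hsm
    unfold sd sm
    cases z.1 D <;> cases z.2 D <;> simp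
  intro c
  refine ⟨D, hD, hDN, ?_, ?_, ?_⟩
  · cases c
    · exact hval.2
    · exact hval.1
  · cases c
    · exact hval.1
    · exact hval.2
  · intro x hx hne
    cases c
    · exact (hoth x hx hne).symm
    · exact hoth x hx hne

lemma vac_zo (c : Bool) (x : ℤ) (z : Config × Config) :
    vac c x z = if bs c z x = !c then 1 else 0 := by
  cases c
  · change (ev x) z.2 = if z.2 x = true then 1 else 0
    rw [ev_apply]
  · change 1 - (ev x) z.1 = if z.1 x = false then 1 else 0
    rw [ev_apply]
    cases z.1 x <;> simp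

lemma Q_apply (k : Kern) (c : Bool) (N : ℕ) (t : ℝ) (x : ℤ) (z : Config × Config) :
    Q k c N t x z = vac c x z * V k N t (Function.update (bs c z) x c, ot c z) := rfl

lemma sd_comm' (a b : Bool) : sd a b = sd b a := by
  cases a <;> cases b <;> simp [sd]

lemma cnt_upd_le (c : Bool) (N : ℕ) (x : ℤ) (z : Config × Config) :
    cnt sd N (Function.update (bs c z) x c, ot c z) ≤ cnt sd N z + 1 := by
  rw [cnt_apply, cnt_apply]
  have h1 : ∀ y ∈ box N, sd (Function.update (bs c z) x c y) (ot c z y)
      ≤ sd (z.1 y) (z.2 y) + if y = x then 1 else 0 := by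
    intro y _
    by_cases hy : y = x
    · rw [if_pos hy]
      have h2 := sd_le_one (Function.update (bs c z) x c y) (ot c z y)
      have h3 := sd_nonneg (z.1 y) (z.2 y)
      linarith
    · rw [if_neg hy, Function.update_of_ne hy, add_zero]
      cases c
      · rw [bs_false, ot_false, sd_comm']
      · rw [bs_true, ot_true]
  refine (Finset.sum_le_sum h1).trans ?_
  rw [Finset.sum_add_distrib]
  have h2 : ∑ y ∈ box N, (if y = x then (1 : ℝ) else 0) ≤ 1 := by
    rw [Finset.sum_ite_eq']
    split_ifs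
    · exact le_rfl
    · exact zero_le_one
  linarith

lemma cnt_le_exc (N : ℕ) (z : Config × Config) : cnt sd N z ≤ 1 + exc N z := by
  rw [exc_apply]
  linarith [le_max_left (cnt sd N z - 1) 0]

lemma Q_nonneg (k : Kern) (c : Bool) (N : ℕ) {t : ℝ} (ht : 0 ≤ t) (x : ℤ) (z : Config × Config) :
    0 ≤ Q k c N t x z := by
  rw [Q_apply, vac_zo]
  have := V_nonneg k N ht (Function.update (bs c z) x c, ot c z)
  split_ifs
  · linarith
  · linarith

lemma Q_le (k : Kern) (c : Bool) (N : ℕ) {t : ℝ} (ht : 0 ≤ t) (x : ℤ) (z : Config × Config) :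
    Q k c N t x z ≤ 1 + exc N z / 2 := by
  rw [Q_apply, vac_zo]
  have h1 := V_le_Phi k N ht (Function.update (bs c z) x c, ot c z)
  rw [Phi_apply] at h1
  have h2 := cnt_upd_le c N x z
  have h3 := cnt_le_exc N z
  have h4 := exc_nonneg N z
  split_ifs
  · linarith
  · linarith

lemma abs_h_sub_le (k : Kern) {R N : ℕ} (hRN : R ≤ N) {t : ℝ} (ht : 0 ≤ t) (c : Bool)
    (z : Config × Config) :
    |sgn c * (hR k R N t (ot c z) - hR k R N t (bs c z))| ≤ 1 + exc N z := by
  have h1 := abs_hR_sub_le k hRN ht z.1 z.2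
  have h2 : cnt sd N (z.1, z.2) = cnt sd N z := rfl
  rw [h2] at h1
  have h3 := cnt_le_exc N z
  cases c
  · change |(if false = true then (1 : ℝ) else -1) * (hR k R N t z.1 - hR k R N t z.2)| ≤ _
    rw [if_neg (by simp), neg_one_mul, abs_neg]
    linarith
  · change |(if true = true then (1 : ℝ) else -1) * (hR k R N t z.2 - hR k R N t z.1)| ≤ _
    rw [if_pos rfl, one_mul, abs_sub_comm]
    linarith

lemma sgn_mul_sgn (c : Bool) : sgn c * sgn c = 1 := by
  cases c <;> simp [sgn]

lemma abs_sgn (c : Bool) : |sgn c| = 1 := by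
  cases c <;> simp [sgn]

lemma jc_eq {c : Bool} {σ τ : ℤ} {o : Config} (h1 : o σ = c) (h2 : o τ = !c) (hne : σ ≠ τ) :
    jc c σ τ o = Function.update (Function.update o σ (!c)) τ c := by
  cases c
  · change jmp τ σ o = _
    funext x
    by_cases hx : x = τ
    · subst hx
      rw [jmp_fst, h1, Function.update_self, Bool.and_false]
    · rw [Function.update_of_ne hx]
      by_cases hx2 : x = σ
      · subst hx2
        rw [jmp_snd hne, h2, Function.update_self]
        rfl
      · rw [Function.update_of_ne hx2, jmp_of_ne _ hx hx2]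
  · change jmp σ τ o = _
    funext x
    by_cases hx : x = τ
    · subst hx
      rw [jmp_snd hne.symm, h1, Function.update_self, Bool.true_or]
    · rw [Function.update_of_ne hx]
      by_cases hx2 : x = σ
      · subst hx2
        rw [jmp_fst, h2, Function.update_self]
        simp
      · rw [Function.update_of_ne hx2, jmp_of_ne _ hx2 hx]

lemma pc_jc {N : ℕ} (c : Bool) {σ τ : ℤ} (hσ : σ ∈ box N) (hτ : τ ∈ box N) (o : Config) :
    pc N (jc c σ τ o) = pc N o := by
  cases c
  · exact pc_jmp hτ hσ o
  · exact pc_jmp hσ hτ o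

lemma One_upd {N : ℕ} {c : Bool} {τ : ℤ} {β : Config} (hτ : τ ∈ box N) (h : β τ = !c) :
    One N c τ β (Function.update β τ c) :=
  ⟨hτ, h, Function.update_self .., fun x _ hne => (Function.update_of_ne hne _ _).symm⟩

lemma pc_eq_of_One {N : ℕ} {c : Bool} {a b : ℤ} {β o₁ o₂ : Config} (h₁ : One N c a β o₁)
    (h₂ : One N c b β o₂) : pc N o₁ = pc N o₂ := by
  have e1 := pc_One le_rfl h₁
  have e2 := pc_One le_rfl h₂
  rw [if_pos h₁.1] at e1
  rw [if_pos h₂.1] at e2
  have h3 := sgn_mul_sgn c
  have h4 : sgn c * (sgn c * (pc N o₁ - pc N β)) = sgn c * (sgn c * (pc N o₂ - pc N β)) := by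
    rw [e1, e2]
  rw [← mul_assoc, ← mul_assoc, h3] at h4
  linarith

lemma tn_zero {ℓ : ℝ} (hℓ : 0 < ℓ) {n : ℤ} (h : ℓ ≤ |(n : ℝ)|) : tn ℓ n = 0 := by
  unfold tn
  have : 1 ≤ |(n : ℝ)| / ℓ := by rwa [le_div_iff₀ hℓ, one_mul]
  exact max_eq_left (by linarith)

lemma V_congr (k : Kern) (N : ℕ) {t : ℝ} (ht : 0 ≤ t) {a b a' b' : Config}
    (h1 : ∀ x ∈ box N, a x = a' x) (h2 : ∀ x ∈ box N, b x = b' x) :
    V k N t (a, b) = V k N t (a', b') :=
  coa_stmt.cyl k N t ht (a, b) (a', b') ⟨h1, h2⟩

lemma infl (hI : InfStmt) (k : Kern) {N : ℕ} {s ℓ : ℝ} (hs : 0 ≤ s) (hℓ : 0 < ℓ) {c : Bool}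
    {σ τ D : ℤ} {β o : Config} (hO : One N c D β o) (hσ : σ ∈ box N) (hτ : τ ∈ box N)
    (hσD : σ ≠ D) (hτD : τ ≠ D) (hτσ : τ ≠ σ) (h1 : β τ = !c) (h2 : o σ = c) :
    |V k N s (Function.update β τ c, Function.update (Function.update o σ (!c)) τ c)
      - V k N s (β, Function.update o σ (!c))|
      ≤ tn ℓ (τ - σ) + tn ℓ (τ - D) + 8 * mom k * s / ℓ := by
  obtain ⟨hD, hβD, hoD, hoth⟩ := hO
  have hβσ : β σ = c := by rw [hoth σ hσ hσD, h2]
  have hoτ : o τ = !c := by rw [← hoth τ hτ hτD, h1]
  cases c
  · have key := hI k N s ℓ hs hℓ D σ τ β hD hσ hτ hσD.symm hτD hτσ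
    have e1 : V k N s (Function.update β τ false,
        Function.update (Function.update o σ (!false)) τ false)
        = V k N s (Function.update (Function.update (Function.update β D true) σ false) τ false,
          Function.update (Function.update (Function.update β D false) σ true) τ false) := by
      refine V_congr k N hs (fun x hx => ?_) fun x hx => ?_
      · by_cases a1 : x = τ
        · subst a1; simp
        · by_cases a2 : x = σ
          · subst a2; simp [a1, hβσ]
          · by_cases a3 : x = D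
            · subst a3; simp [a1, a2, hβD]
            · simp [a1, a2, a3]
      · by_cases a1 : x = τ
        · subst a1; simp
        · by_cases a2 : x = σ
          · subst a2; simp [a1]
          · by_cases a3 : x = D
            · subst a3; simp [a1, a2, hoD]
            · simp [a1, a2, a3, hoth x hx a3]
    have e2 : V k N s (β, Function.update o σ (!false))
        = V k N s (Function.update (Function.update (Function.update β D true) σ false) τ true,
          Function.update (Function.update (Function.update β D false) σ true) τ true) := by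
      refine V_congr k N hs (fun x hx => ?_) fun x hx => ?_
      · by_cases a1 : x = τ
        · subst a1; simp [h1]
        · by_cases a2 : x = σ
          · subst a2; simp [a1, hβσ]
          · by_cases a3 : x = D
            · subst a3; simp [a1, a2, hβD]
            · simp [a1, a2, a3]
      · by_cases a1 : x = τ
        · subst a1; simp [hτσ, hoτ]
        · by_cases a2 : x = σ
          · subst a2; simp [a1]
          · by_cases a3 : x = D
            · subst a3; simp [a1, a2, hoD]
            · simp [a1, a2, a3, hoth x hx a3]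
    rw [e1, e2, abs_sub_comm]
    linarith
  · have key := hI k N s ℓ hs hℓ σ D τ β hσ hD hτ hσD hτσ hτD
    have e1 : V k N s (Function.update β τ true,
        Function.update (Function.update o σ (!true)) τ true)
        = V k N s (Function.update (Function.update (Function.update β σ true) D false) τ true,
          Function.update (Function.update (Function.update β σ false) D true) τ true) := by
      refine V_congr k N hs (fun x hx => ?_) fun x hx => ?_
      · by_cases a1 : x = τ
        · subst a1; simp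
        · by_cases a3 : x = D
          · subst a3; simp [a1, hβD]
          · by_cases a2 : x = σ
            · subst a2; simp [a1, a3, hβσ]
            · simp [a1, a2, a3]
      · by_cases a1 : x = τ
        · subst a1; simp
        · by_cases a3 : x = D
          · subst a3; simp [a1, hσD.symm, hoD]
          · by_cases a2 : x = σ
            · subst a2; simp [a1, a3]
            · simp [a1, a2, a3, hoth x hx a3]
    have e2 : V k N s (β, Function.update o σ (!true))
        = V k N s (Function.update (Function.update (Function.update β σ true) D false) τ false,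
          Function.update (Function.update (Function.update β σ false) D true) τ false) := by
      refine V_congr k N hs (fun x hx => ?_) fun x hx => ?_
      · by_cases a1 : x = τ
        · subst a1; simp [h1]
        · by_cases a3 : x = D
          · subst a3; simp [a1, hβD]
          · by_cases a2 : x = σ
            · subst a2; simp [a1, a3, hβσ]
            · simp [a1, a2, a3]
      · by_cases a1 : x = τ
        · subst a1; simp [hτσ, hoτ]
        · by_cases a3 : x = D
          · subst a3; simp [a1, hσD.symm, hoD]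
          · by_cases a2 : x = σ
            · subst a2; simp [a1, a3]
            · simp [a1, a2, a3, hoth x hx a3]
    rw [e1, e2]
    exact key

lemma hR_congr (k : Kern) {R N : ℕ} (hRN : R ≤ N) {t : ℝ} (ht : 0 ≤ t) {a b : Config}
    (h : ∀ x ∈ box N, a x = b x) : hR k R N t a = hR k R N t b := by
  have h1 := abs_hR_sub_le k hRN ht a b
  have h2 : cnt sd N (a, b) = 0 := by
    rw [cnt_apply]
    refine Finset.sum_eq_zero fun x hx => ?_
    simp only
    rw [h x hx]
    simp [sd]
  rw [h2] at h1
  have h3 := abs_nonpos_iff.mp h1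
  linarith

/-- The first reduction: coalescence at the target. -/
lemma V_le_two {k : Kern} {R N : ℕ} (hRN : R ≤ N) {t r : ℝ} (ht : 0 < t) (hr : 0 < r)
    (hp : ∀ n : ℕ, 1 ≤ n → n ≤ 2 * R → r ≤ k.p (-(n : ℤ))) {c : Bool} {D τ : ℤ}
    {β o w : Config} (hO : One N c D β o) (hτ : τ ∈ box N) (h1 : β τ = !c) :
    V k N t (Function.update β τ c, o)
      ≤ |hR k R N t w - hR k R N t (Function.update β τ c)| + |hR k R N t w - hR k R N t o|
        + 2 * (1 - sgn c * (hR k R N t o - hR k R N t β)) + 2 / (r * t) := by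
  have h2 := tri_stmt k R N t r hRN ht hr hp c τ D β _ o (One_upd hτ h1) hO
  have h3 : sgn c * (hR k R N t o - hR k R N t (Function.update β τ c))
      ≤ |hR k R N t w - hR k R N t (Function.update β τ c)|
        + |hR k R N t w - hR k R N t o| := by
    have h4 := le_abs_self (sgn c * (hR k R N t o - hR k R N t (Function.update β τ c)))
    rw [abs_mul, abs_sgn, one_mul] at h4
    have h5 : |hR k R N t o - hR k R N t (Function.update β τ c)|
        ≤ |hR k R N t o - hR k R N t w| + |hR k R N t w - hR k R N t (Function.update β τ c)| :=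
      abs_sub_le _ _ _
    rw [abs_sub_comm (hR k R N t o) (hR k R N t w)] at h5
    linarith
  have h6 : 1 - sgn c * (hR k R N t (Function.update β τ c) - hR k R N t β)
      = (1 - sgn c * (hR k R N t o - hR k R N t β))
        + sgn c * (hR k R N t o - hR k R N t (Function.update β τ c)) := by ring
  rw [h6] at h2
  linarith

lemma abs_le_of_mem {R : ℕ} {D : ℤ} (hD : D ∈ box R) : |(D : ℝ)| ≤ R := by
  rw [mem_box] at hD
  exact_mod_cast hD

/-- The step in the good case. -/
lemma step_good (hI : InfStmt) {k : Kern} {R N : ℕ} {s t r ℓ : ℝ} (hRN : R < N) (hs : 0 ≤ s)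
    (hst : s ≤ t) (ht : 0 < t) (hr : 0 < r) (hℓ : 0 < ℓ)
    (hp : ∀ n : ℕ, 1 ≤ n → n ≤ 2 * R → r ≤ k.p (-(n : ℤ))) {c : Bool} {σ τ D : ℤ}
    {β o : Config} (hσ : σ ∈ box N) (hτ : τ ∈ box N) (hσR : (R : ℤ) < |σ|)
    (hτR : (R : ℝ) + ℓ ≤ |(τ : ℝ)|) (hτσ : ℓ ≤ |((τ - σ : ℤ) : ℝ)|) (hO : One N c D β o)
    (hD : D ∈ box R) (h1 : β τ = !c) (h2 : o σ = c) :
    V k N t (Function.update β τ c, o) ≤ V k N s (Function.update o σ (!c), β)
      + 8 * mom k * s / ℓ + |hR k R N t (jc c σ τ o) - hR k R N t o|
      + 2 * (1 - sgn c * (hR k R N t o - hR k R N t β)) + 2 / (r * t) := by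
  have hDR := abs_le_of_mem hD
  have hD2 : |D| ≤ (R : ℤ) := mem_box.mp hD
  have hσD : σ ≠ D := by
    rintro rfl
    omega
  have hτD : τ ≠ D := by
    rintro rfl
    linarith
  have hne : τ ≠ σ := by
    rintro rfl
    simp at hτσ
    linarith
  have hoτ : o τ = !c := by rw [← hO.2.2.2 τ hτ hτD, h1]
  have h3 := V_le_two (w := jc c σ τ o) hRN.le ht hr hp hO hτ h1
  have h4 : |hR k R N t (jc c σ τ o) - hR k R N t (Function.update β τ c)|
      ≤ V k N t (jc c σ τ o, Function.update β τ c) := by
    refine coa_stmt.abs_le_V k R N t hRN.le ht.le _ _ ?_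
    rw [pc_jc c hσ hτ]
    exact pc_eq_of_One hO (One_upd hτ h1)
  have h5 : V k N t (jc c σ τ o, Function.update β τ c)
      ≤ V k N s (Function.update β τ c, jc c σ τ o) := by
    rw [coa_stmt.symm k N t ht.le]
    exact coa_stmt.anti k N s t hs hst _
  have h6 := infl hI k hs hℓ hO hσ hτ hσD hτD hne h1 h2
  rw [tn_zero hℓ hτσ] at h6
  have h7 : ℓ ≤ |((τ - D : ℤ) : ℝ)| := by
    push_cast
    have := abs_sub_abs_le_abs_sub (τ : ℝ) (D : ℝ)
    linarith
  rw [tn_zero hℓ h7, ← jc_eq h2 hoτ hne.symm] at h6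
  have h8 := (abs_le.mp h6).2
  have h9 := coa_stmt.symm k N s hs β (Function.update o σ (!c))
  linarith

lemma pull_site_sum (N : ℕ) (z : Config × Config) : 0 ≤ cnt sm N z := cnt_nonneg sm_nonneg N z

theorem pnt_step (hI : InfStmt) (k : Kern) (R N : ℕ) (s t r ℓ : ℝ) (hRN : R < N) (hs : 0 ≤ s)
    (hst : s ≤ t) (ht : 0 < t) (hr : 0 < r) (hℓ : 0 < ℓ)
    (hp : ∀ n : ℕ, 1 ≤ n → n ≤ 2 * R → r ≤ k.p (-(n : ℤ))) (c : Bool) (σ τ : ℤ)
    (hσ : σ ∈ box N) (hτ : τ ∈ box N) (hσR : (R : ℤ) < |σ|)
    (hτR : (R : ℝ) + ℓ ≤ |(τ : ℝ)|) (hτσ : ℓ ≤ |((τ - σ : ℤ) : ℝ)|) (z : Config × Config) :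
    Q k c N t τ z ≤ Q k (!c) N s σ z + 8 * mom k * s / ℓ
        + |hR k R N t (jc c σ τ (ot c z)) - hR k R N t (ot c z)|
        + 2 * (1 - sgn c * (hR k R N t (ot c z) - hR k R N t (bs c z))) + 2 / (r * t)
        + (1 - vac (!c) σ z) + Bd R N z := by
  have hm := mom_nonneg k
  have g1 := Q_nonneg k (!c) N hs σ z
  have g2 : 0 ≤ 8 * mom k * s / ℓ := by positivity
  have g3 := abs_nonneg (hR k R N t (jc c σ τ (ot c z)) - hR k R N t (ot c z))
  have g4 : 0 ≤ 2 / (r * t) := by positivity
  have g5 : 0 ≤ 1 - vac (!c) σ z := by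
    rw [vac_zo]
    split_ifs <;> norm_num
  have g6 := kap_nonneg R z
  have g7 := exc_nonneg N z
  have g8 := pull_site_sum N z
  rw [Bd_apply]
  rcases good_or_bad hRN.le z with hg | hb
  · obtain ⟨D, hD, hO⟩ := hg c
    have h1 := coa_stmt.one_le k R N t hRN.le ht.le c D _ _ hO
    have hQ : Q k c N t τ z = vac c τ z * V k N t (Function.update (bs c z) τ c, ot c z) := rfl
    by_cases hv : bs c z τ = !c
    swap
    · rw [hQ, vac_zo, if_neg hv, zero_mul]
      linarith [h1.2]
    by_cases hv2 : ot c z σ = c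
    swap
    · have h2 : V k N t (Function.update (bs c z) τ c, ot c z) ≤ 1 := by
        refine (V_le_Phi k N ht.le _).trans ?_
        have := Phi_One_le (One_upd hτ hv) hO
        split_ifs at this
        · linarith
        · exact this
      have h3 : vac (!c) σ z = 0 := by
        rw [vac_zo, if_neg]
        rw [← ot_eq, Bool.not_not]
        exact hv2
      rw [hQ, vac_zo, if_pos hv, one_mul, h3]
      linarith [h1.2]
    have h2 := step_good hI hRN hs hst ht hr hℓ hp hσ hτ hσR hτR hτσ hO hD hv hv2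
    have h3 : Q k (!c) N s σ z = V k N s (Function.update (ot c z) σ (!c), bs c z) := by
      rw [Q_apply, vac_zo, if_pos, one_mul, ← ot_eq, bs_eq]
      rw [← ot_eq, Bool.not_not]
      exact hv2
    rw [hQ, vac_zo, if_pos hv, one_mul, h3]
    linarith
  · have h1 := Q_le k c N ht.le τ z
    have h2 := abs_h_sub_le k hRN.le ht.le c z
    have h3 := (abs_le.mp h2).2
    rcases le_or_gt 1 (kap R z + cnt sm N z) with h4 | h4
    · linarith
    · obtain ⟨b, hb'⟩ := cnt_nat sd_zo N z
      obtain ⟨m, hm'⟩ := cnt_nat sm_zo N z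
      obtain ⟨a, ha'⟩ := cnt_nat sd_zo R z
      have h5 : 1 ≤ exc N z := by
        have hk0 : kap R z = 0 := by
          rw [kap_apply, ha'] at h4 ⊢
          rcases Nat.eq_zero_or_pos a with h | h
          · rw [h] at h4
            simp at h4
            linarith
          · have : (1 : ℝ) ≤ a := by exact_mod_cast h
            rw [min_eq_left this, sub_self]
        have hm0 : cnt sm N z = 0 := by
          rw [hm'] at h4 ⊢
          rcases Nat.eq_zero_or_pos m with h | h
          · rw [h]; simp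
          · have : (1 : ℝ) ≤ m := by exact_mod_cast h
            linarith
        linarith
      linarith

theorem pnt_base (k : Kern) (R N : ℕ) (t r : ℝ) (hRN : R < N) (ht : 0 < t) (hr : 0 < r)
    (hp : ∀ n : ℕ, 1 ≤ n → n ≤ 2 * R → r ≤ k.p (-(n : ℤ))) (c : Bool) (τ : ℤ)
    (hτ : τ ∈ box N) (hτR : (R : ℤ) < |τ|) (z : Config × Config) :
    Q k c N t τ z ≤ ∑ σ ∈ box R, |hR k R N t (jc c σ τ (ot c z)) - hR k R N t (ot c z)|
        + 2 * (1 - sgn c * (hR k R N t (ot c z) - hR k R N t (bs c z))) + 2 / (r * t)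
        + Bd R N z := by
  have g3 : 0 ≤ ∑ σ ∈ box R, |hR k R N t (jc c σ τ (ot c z)) - hR k R N t (ot c z)| :=
    Finset.sum_nonneg fun _ _ => abs_nonneg _
  have g4 : 0 ≤ 2 / (r * t) := by positivity
  have g6 := kap_nonneg R z
  have g7 := exc_nonneg N z
  have g8 := pull_site_sum N z
  rw [Bd_apply]
  rcases good_or_bad hRN.le z with hg | hb
  · obtain ⟨D, hD, hO⟩ := hg c
    have h1 := coa_stmt.one_le k R N t hRN.le ht.le c D _ _ hO
    have hQ : Q k c N t τ z = vac c τ z * V k N t (Function.update (bs c z) τ c, ot c z) := rfl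
    by_cases hv : bs c z τ = !c
    swap
    · rw [hQ, vac_zo, if_neg hv, zero_mul]
      linarith [h1.2]
    have hD2 : |D| ≤ (R : ℤ) := mem_box.mp hD
    have hτD : τ ≠ D := by
      rintro rfl
      omega
    have hoτ : ot c z τ = !c := by rw [← hO.2.2.2 τ hτ hτD, hv]
    have h2 := V_le_two (w := jc c D τ (ot c z)) hRN.le ht hr hp hO hτ hv
    have h3 : hR k R N t (jc c D τ (ot c z))
        = hR k R N t (Function.update (bs c z) τ c) := by
      refine hR_congr k hRN.le ht.le fun x hx => ?_
      rw [jc_eq hO.2.2.1 hoτ hτD.symm]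
      by_cases a1 : x = τ
      · subst a1; simp
      · by_cases a2 : x = D
        · subst a2; simp [a1, hO.2.1]
        · simp [a1, a2, hO.2.2.2 x hx a2]
    rw [h3, sub_self, abs_zero, zero_add, ← h3] at h2
    have h4 : |hR k R N t (jc c D τ (ot c z)) - hR k R N t (ot c z)|
        ≤ ∑ σ ∈ box R, |hR k R N t (jc c σ τ (ot c z)) - hR k R N t (ot c z)| :=
      Finset.single_le_sum (f := fun σ => |hR k R N t (jc c σ τ (ot c z)) - hR k R N t (ot c z)|)
        (fun _ _ => abs_nonneg _) hD
    rw [hQ, vac_zo, if_pos hv, one_mul]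
    linarith
  · have h1 := Q_le k c N ht.le τ z
    have h2 := abs_h_sub_le k hRN.le ht.le c z
    have h3 := (abs_le.mp h2).2
    rcases le_or_gt 1 (kap R z + cnt sm N z) with h4 | h4
    · linarith
    · obtain ⟨m, hm'⟩ := cnt_nat sm_zo N z
      obtain ⟨a, ha'⟩ := cnt_nat sd_zo R z
      have h5 : 1 ≤ exc N z := by
        have hk0 : kap R z = 0 := by
          rw [kap_apply, ha'] at h4 ⊢
          rcases Nat.eq_zero_or_pos a with h | h
          · rw [h] at h4
            simp at h4
            linarith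
          · have : (1 : ℝ) ≤ a := by exact_mod_cast h
            rw [min_eq_left this, sub_self]
        have hm0 : cnt sm N z = 0 := by
          rw [hm'] at h4 ⊢
          rcases Nat.eq_zero_or_pos m with h | h
          · rw [h]; simp
          · have : (1 : ℝ) ≤ m := by exact_mod_cast h
            linarith
        linarith
      linarith

lemma Disc_pc (R : ℕ) {ℓ : ℝ} (hℓ : 0 < ℓ) : Disc (tent R ℓ) (pc R) := by
  intro x η
  rw [pc_apply, pc_apply, ← Finset.sum_sub_distrib]
  by_cases hx : x ∈ box R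
  · rw [Finset.sum_eq_single_of_mem x hx, tent_eq_one R hℓ hx, ev_apply, ev_apply,
      Function.update_self, Function.update_self]
    · simp
    · intro y _ hy
      rw [ev_apply, ev_apply, Function.update_of_ne hy, Function.update_of_ne hy, sub_self]
  · rw [Finset.sum_eq_zero, abs_zero]
    · exact tent_nonneg _ _ _
    · intro y hy
      have hne : y ≠ x := fun e => hx (e ▸ hy)
      rw [ev_apply, ev_apply, Function.update_of_ne hne, Function.update_of_ne hne, sub_self]

lemma h_far (k : Kern) (R N : ℕ) {t ℓ : ℝ} (ht : 0 ≤ t) (hℓ : 0 < ℓ) {c : Bool} {τ : ℤ}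
    (hτR : (R : ℝ) + ℓ ≤ |(τ : ℝ)|) {β : Config} (h1 : β τ = !c) :
    |hR k R N t (Function.update β τ c) - hR k R N t β| ≤ 2 * mom k * t / ℓ := by
  have h2 := Disc_Rop k (ℓ := 1 / ℓ) (by positivity) (tent_nonneg R ℓ) (tent_lip R hℓ)
    (Disc_pc R hℓ) N ht τ β
  beta_reduce at h2
  rw [tent_eq_zero R hℓ hτR, zero_add] at h2
  have h3 : 2 * mom k * (1 / ℓ) * t = 2 * mom k * t / ℓ := by ring
  rw [h3] at h2
  have h4 : β = Function.update β τ (!c) := by rw [← h1, Function.update_eq_self]
  cases c
  · rw [abs_sub_comm]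
    conv_lhs => rw [h4]
    rw [Function.update_idem]
    exact h2
  · conv_lhs => rw [h4]
    rw [Function.update_idem]
    exact h2

theorem pnt_fin (k : Kern) (R N : ℕ) (t ℓ : ℝ) (hRN : R < N) (ht : 0 ≤ t) (hℓ : 0 < ℓ)
    (c : Bool) (τ : ℤ) (hτ : τ ∈ box N) (hτR' : (R : ℤ) < |τ|)
    (hτR : (R : ℝ) + ℓ ≤ |(τ : ℝ)|) (z : Config × Config) :
    sgn c * (hR k R N t (ot c z) - hR k R N t (bs c z)) ≤ Q k c N t τ z
        + 2 * mom k * t / ℓ + (1 - vac c τ z) + Bd R N z := by
  have hm := mom_nonneg k
  have g1 := Q_nonneg k c N ht τ z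
  have g2 : 0 ≤ 2 * mom k * t / ℓ := by positivity
  have g5 : 0 ≤ 1 - vac c τ z := by
    rw [vac_zo]
    split_ifs <;> norm_num
  have g6 := kap_nonneg R z
  have g7 := exc_nonneg N z
  have g8 := pull_site_sum N z
  rw [Bd_apply]
  rcases good_or_bad hRN.le z with hg | hb
  · obtain ⟨D, hD, hO⟩ := hg c
    have h1 := coa_stmt.one_le k R N t hRN.le ht c D _ _ hO
    by_cases hv : bs c z τ = !c
    swap
    · have h3 : vac c τ z = 0 := by rw [vac_zo, if_neg hv]
      rw [h3]
      linarith [h1.2]
    have hQ : Q k c N t τ z = V k N t (Function.update (bs c z) τ c, ot c z) := by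
      rw [Q_apply, vac_zo, if_pos hv, one_mul]
    have h2 := h_far k R N ht hℓ hτR hv
    have h3 := coa_stmt.abs_le_V k R N t hRN.le ht (Function.update (bs c z) τ c) (ot c z)
      (pc_eq_of_One (One_upd hτ hv) hO)
    have h4 : sgn c * (hR k R N t (ot c z) - hR k R N t (bs c z))
        ≤ |hR k R N t (ot c z) - hR k R N t (bs c z)| := by
      have := le_abs_self (sgn c * (hR k R N t (ot c z) - hR k R N t (bs c z)))
      rwa [abs_mul, abs_sgn, one_mul] at this
    have h5 := abs_sub_le (hR k R N t (ot c z)) (hR k R N t (Function.update (bs c z) τ c))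
      (hR k R N t (bs c z))
    rw [abs_sub_comm (hR k R N t (ot c z)) (hR k R N t (Function.update (bs c z) τ c))] at h5
    rw [hQ]
    linarith
  · have h2 := abs_h_sub_le k hRN.le ht c z
    have h3 := (abs_le.mp h2).2
    linarith

theorem pnt_stmt (hI : InfStmt) : PntStmt where
  step := pnt_step hI
  base := pnt_base
  fin := pnt_fin

end Pool.Agent.Helper54Exc
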