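import Pool.Agent.Helper54_Exc.Lib
import Pool.Agent.Helper54_Exc.Defs

/-! Statements of the modules. -/

namespace Pool.Agent.Helper54Exc

open Filter Topology Pool.Agent.Helper28Excl

/-- COA: basic properties of the coalescence function. -/
structure CoaStmt : Prop where
  nonneg : ∀ (k : Kern) (N : ℕ) (t : ℝ), 0 ≤ t → ∀ z, 0 ≤ V k N t z
  le_Phi : ∀ (k : Kern) (N : ℕ) (t : ℝ), 0 ≤ t → ∀ z, V k N t z ≤ Phi N z
  anti : ∀ (k : Kern) (N : ℕ) (s t : ℝ), 0 ≤ s → s ≤ t → ∀ z, V k N t z ≤ V k N s z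
  symm : ∀ (k : Kern) (N : ℕ) (t : ℝ), 0 ≤ t → ∀ a b : Config, V k N t (a, b) = V k N t (b, a)
  cyl : ∀ (k : Kern) (N : ℕ) (t : ℝ), 0 ≤ t → Cyl XX N (V k N t)
  /-- time spent by opposite discrepancies in a window -/
  opp_le : ∀ (k : Kern) (R N : ℕ) (t r : ℝ), R ≤ N → 0 < t → 0 < r →
    (∀ n : ℕ, 1 ≤ n → n ≤ 2 * R → r ≤ k.p (-(n : ℤ))) → ∀ z,
    Rop XX k N t (∑ q ∈ box R ×ˢ box R, opp q.1 q.2) z ≤ 2 / (r * t) * Phi N z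
  /-- the window counts differ by at most the number of discrepancies -/
  abs_le_cnt : ∀ (k : Kern) (R N : ℕ) (t : ℝ), R ≤ N → 0 ≤ t → ∀ a b : Config,
    |hR k R N t a - hR k R N t b| ≤ cnt sd N (a, b)
  /-- equal numbers of particles: the window counts differ by at most the coalescence function -/
  abs_le_V : ∀ (k : Kern) (R N : ℕ) (t : ℝ), R ≤ N → 0 ≤ t → ∀ a b : Config, pc N a = pc N b →
    |hR k R N t a - hR k R N t b| ≤ V k N t (a, b)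
  /-- one extra particle: the window count increases by a number in `[0, 1]` -/
  one_le : ∀ (k : Kern) (R N : ℕ) (t : ℝ), R ≤ N → 0 ≤ t → ∀ (c : Bool) (D : ℤ) (β o : Config),
    One N c D β o → 0 ≤ sgn c * (hR k R N t o - hR k R N t β) ∧
      sgn c * (hR k R N t o - hR k R N t β) ≤ 1

/-- TRI: returned to the window implies coalesced. -/
def TriStmt : Prop :=
  ∀ (k : Kern) (R N : ℕ) (t r : ℝ), R ≤ N → 0 < t → 0 < r →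
    (∀ n : ℕ, 1 ≤ n → n ≤ 2 * R → r ≤ k.p (-(n : ℤ))) →
    ∀ (c : Bool) (a b : ℤ) (β o₁ o₂ : Config), One N c a β o₁ → One N c b β o₂ →
      V k N t (o₁, o₂) ≤ (1 - sgn c * (hR k R N t o₁ - hR k R N t β))
        + (1 - sgn c * (hR k R N t o₂ - hR k R N t β)) + 2 / (r * t)

/-- INF: influence of a far particle on the coalescence of two discrepancies. -/
def InfStmt : Prop :=
  ∀ (k : Kern) (N : ℕ) (s ℓ : ℝ), 0 ≤ s → 0 < ℓ →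
    ∀ (a b τ : ℤ) (ω : Config), a ∈ box N → b ∈ box N → τ ∈ box N → a ≠ b → τ ≠ a → τ ≠ b →
      |V k N s (Function.update (Function.update (Function.update ω a true) b false) τ true,
          Function.update (Function.update (Function.update ω a false) b true) τ true)
        - V k N s (Function.update (Function.update (Function.update ω a true) b false) τ false,
          Function.update (Function.update (Function.update ω a false) b true) τ false)|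
      ≤ tn ℓ (τ - a) + tn ℓ (τ - b) + 8 * mom k * s / ℓ

/-- PNT: the pointwise inequalities. -/
structure PntStmt : Prop where
  /-- the step inequality -/
  step : ∀ (k : Kern) (R N : ℕ) (s t r ℓ : ℝ), R < N → 0 ≤ s → s ≤ t → 0 < t → 0 < r → 0 < ℓ →
    (∀ n : ℕ, 1 ≤ n → n ≤ 2 * R → r ≤ k.p (-(n : ℤ))) →
    ∀ (c : Bool) (σ τ : ℤ), σ ∈ box N → τ ∈ box N → (R : ℤ) < |σ| → (R : ℝ) + ℓ ≤ |(τ : ℝ)| →
      ℓ ≤ |((τ - σ : ℤ) : ℝ)| → ∀ z,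
      Q k c N t τ z ≤ Q k (!c) N s σ z + 8 * mom k * s / ℓ
        + |hR k R N t (jc c σ τ (ot c z)) - hR k R N t (ot c z)|
        + 2 * (1 - sgn c * (hR k R N t (ot c z) - hR k R N t (bs c z))) + 2 / (r * t)
        + (1 - vac (!c) σ z) + Bd R N z
  /-- the base inequality -/
  base : ∀ (k : Kern) (R N : ℕ) (t r : ℝ), R < N → 0 < t → 0 < r →
    (∀ n : ℕ, 1 ≤ n → n ≤ 2 * R → r ≤ k.p (-(n : ℤ))) →
    ∀ (c : Bool) (τ : ℤ), τ ∈ box N → (R : ℤ) < |τ| → ∀ z,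
      Q k c N t τ z ≤ ∑ σ ∈ box R, |hR k R N t (jc c σ τ (ot c z)) - hR k R N t (ot c z)|
        + 2 * (1 - sgn c * (hR k R N t (ot c z) - hR k R N t (bs c z))) + 2 / (r * t)
        + Bd R N z
  /-- the final inequality -/
  fin : ∀ (k : Kern) (R N : ℕ) (t ℓ : ℝ), R < N → 0 ≤ t → 0 < ℓ →
    ∀ (c : Bool) (τ : ℤ), τ ∈ box N → (R : ℤ) < |τ| → (R : ℝ) + ℓ ≤ |(τ : ℝ)| → ∀ z,
      sgn c * (hR k R N t (ot c z) - hR k R N t (bs c z)) ≤ Q k c N t τ z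
        + 2 * mom k * t / ℓ + (1 - vac c τ z) + Bd R N z

/-- The stationary coupling with exactly one discrepancy. -/
structure OneDisc (k : Kern) (ν : C(Config × Config, ℝ) →ₗ[ℝ] ℝ) : Prop where
  inv : InvState XX k ν
  sm : ∀ x, ν (site sm x) = 0
  exc : ∀ K, ν (exc K) = 0
  kap : ∀ ε : ℝ, 0 < ε → ∃ K, ν (kap K) ≤ ε
  tail : ∀ ε : ℝ, 0 < ε → ∃ A : ℕ, ∀ (c : Bool) (n : ℕ), A ≤ n → ∀ x ∈ Sc c n,
    ν (1 - vac c x) ≤ ε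

/-- Scale `n` of side `c` is returned at time `t` with error `δ`. -/
def Ret (k : Kern) (ν : C(Config × Config, ℝ) →ₗ[ℝ] ℝ) (c : Bool) (t : ℝ) (n : ℕ) (δ : ℝ) : Prop :=
  ∀ᶠ N in atTop, ∑ τ ∈ Sc c n, ν (Q k c N t τ) ≤ δ * (n + 1)

/-- MAR: facts on the marginals of `ν` and the resolvent of the window count. -/
structure MarStmt : Prop where
  /-- energy estimate, in the form used -/
  energy : ∀ (k : Kern) (ν : C(Config × Config, ℝ) →ₗ[ℝ] ℝ), InvState XX k ν →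
    ∀ (R : ℕ) (t : ℝ), 0 < t → ∀ᶠ N in atTop, ∀ c : Bool,
      ∑ a ∈ box N ×ˢ box N, k.p (a.2 - a.1)
        * ν (pull (ot c) (Esq (hR k R N t) a.1 a.2)) ≤ (2 * R + 1) ^ 2 / t
  /-- the discrepancy is in the window most of the time -/
  window : ∀ (k : Kern) (ν : C(Config × Config, ℝ) →ₗ[ℝ] ℝ), OneDisc k ν →
    ∀ (R : ℕ) (t ε : ℝ), 0 < t → 0 < ε → ∀ᶠ N in atTop, ∀ c : Bool,
      ν (sgn c • (pull (ot c) (hR k R N t) - pull (bs c) (hR k R N t))) ≥ 1 - ν (kap R) - ε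

/-- BAS: base of the recursion. -/
def BasStmt : Prop :=
  ∀ (k : Kern) (ν : C(Config × Config, ℝ) →ₗ[ℝ] ℝ) (c0 β : ℝ), 0 < c0 → 0 < β →
    (∀ n : ℕ, 1 ≤ n → c0 * (n : ℝ) ^ (-β) ≤ k.p (-(n : ℤ))) → OneDisc k ν →
    ∀ ε : ℝ, 0 < ε → ∃ K : ℝ, 1 ≤ K ∧ ∀ (c : Bool) (n : ℕ) (t : ℝ), K ≤ n → K ≤ t →
      K * (n : ℝ) ^ (β - 1) ≤ t → Ret k ν c t n ε

/-- STE: step of the recursion. -/
def SteStmt : Prop :=
  ∀ (k : Kern) (ν : C(Config × Config, ℝ) →ₗ[ℝ] ℝ) (c0 β : ℝ), 0 < c0 → 0 < β →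
    (∀ n : ℕ, 1 ≤ n → c0 * (n : ℝ) ^ (-β) ≤ k.p (-(n : ℤ))) → OneDisc k ν →
    ∀ ε : ℝ, 0 < ε → ∃ K : ℝ, 1 ≤ K ∧ ∀ (c : Bool) (m n : ℕ) (s t δ : ℝ), K ≤ m → K * m ≤ n →
      K ≤ t → 0 ≤ s → s ≤ t → K * s ≤ n → K * (n : ℝ) ^ (β - 1) ≤ t * m → 0 ≤ δ →
      Ret k ν (!c) s m δ → Ret k ν c t n (δ + ε)

/-- END: the speed bound. -/
def EndStmt : Prop :=
  ∀ (k : Kern) (ν : C(Config × Config, ℝ) →ₗ[ℝ] ℝ), OneDisc k ν →
    ∃ K : ℝ, 1 ≤ K ∧ ∀ (c : Bool) (n : ℕ) (t : ℝ), K ≤ n → 0 < t → K * t ≤ n →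
      ¬ Ret k ν c t n (1 / 4)

/-- ARI: the recursion. -/
def AriStmt : Prop :=
  ∀ (β : ℝ) (P : Bool → ℝ → ℕ → ℝ → Prop), 2 ≤ β → β < 3 →
    (∀ c t n δ δ', δ ≤ δ' → P c t n δ → P c t n δ') →
    (∀ ε : ℝ, 0 < ε → ∃ K : ℝ, 1 ≤ K ∧ ∀ (c : Bool) (n : ℕ) (t : ℝ), K ≤ n → K ≤ t →
      K * (n : ℝ) ^ (β - 1) ≤ t → P c t n ε) →
    (∀ ε : ℝ, 0 < ε → ∃ K : ℝ, 1 ≤ K ∧ ∀ (c : Bool) (m n : ℕ) (s t δ : ℝ), K ≤ m → K * m ≤ n →
      K ≤ t → 0 ≤ s → s ≤ t → K * s ≤ n → K * (n : ℝ) ^ (β - 1) ≤ t * m → 0 ≤ δ →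
      P (!c) s m δ → P c t n (δ + ε)) →
    (∃ K : ℝ, 1 ≤ K ∧ ∀ (c : Bool) (n : ℕ) (t : ℝ), K ≤ n → 0 < t → K * t ≤ n →
      ¬ P c t n (1 / 4)) → False

/-- NOS: no stationary state. -/
def NosStmt : Prop :=
  ∀ (k : Kern) (c0 β : ℝ), 0 < c0 → β < 3 →
    (∀ n : ℕ, 1 ≤ n → c0 * (n : ℝ) ^ (-β) ≤ k.p (-(n : ℤ))) →
    ∀ (Λ : C(Config, ℝ) →ₗ[ℝ] ℝ), InvState X k Λ →
      Tendsto (fun x : ℤ => Λ (ev x)) atBot (𝓝 0) →
      Tendsto (fun x : ℤ => Λ (ev x)) atTop (𝓝 1) → False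

/-- FAM: explicit kernels satisfying (H). -/
def FamStmt : Prop :=
  ∀ b : ℝ, 2 < b → b ≤ 3 → IsKernel (pb b) ∧ Irred (pb b) ∧ CondH (pb b) ∧ 0 < cb b ∧
    ∀ n : ℕ, 1 ≤ n → pb b (-(n : ℤ)) = cb b * (n : ℝ) ^ (-b)

end Pool.Agent.Helper54Exc
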