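import Pool.Agent.Helper28_Excl.Bridge
import Pool.Agent.Helper54_Exc.Stmts
import Pool.Agent.Helper54_Exc.Coa
import Pool.Agent.Helper36_Exc.Fam
import Pool.Agent.Helper36_Exc.Mar
import Pool.Agent.Helper65_Exc.End
import Pool.Agent.Helper75_Exc.Ste
import Pool.Agent.Helper81_Exc.Ari
import Pool.Agent.Helper11_Exc.Tri
import Pool.Agent.Helper46_Exc.Inf
import Pool.Agent.Helper54_Exc.Pnt
import Pool.Agent.Helper59_Exc.Nos

/-! Assembly. -/

namespace Pool.Agent.Helper54Exc

open Filter Topology Pool.Agent.Helper28Excl MeasureTheory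

theorem fam_stmt : FamStmt := H36.fam_stmt

theorem pnt_final : PntStmt := pnt_stmt H46.inf_stmt

theorem nos_stmt : NosStmt :=
  H59.nos (H75.bas H36.mar_stmt pnt_final) (H75.ste H36.mar_stmt pnt_final)
    (H65.end_stmt H36.mar_stmt pnt_final) H81.ari

/-- Nonexistence at the level of the generator. -/
theorem no_measure_power {p : ℤ → ℝ} {c β : ℝ} (hc : 0 < c) (hβ : β < 3)
    (hlow : ∀ n : ℕ, 1 ≤ n → c * (n : ℝ) ^ (-β) ≤ p (-(n : ℤ)))
    (hp : IsKernel p) (hm : FiniteMean p) {μ : Measure Config} [IsProbabilityMeasure μ]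
    (h : ∀ f : C(Config, ℝ), IsCyl f → ∫ η, gen p f η ∂μ = 0) : ¬ HasLimits μ := by
  rintro ⟨hl, hr⟩
  have hinv := invState_of_gen hp hm h
  refine nos_stmt (mkKern hp hm) c β hc hβ hlow _ hinv ?_ ?_
  · simp only [intFun_ev]
    have := (ENNReal.tendsto_toReal ENNReal.zero_ne_top).comp hl
    rw [ENNReal.toReal_zero] at this
    exact this
  · simp only [intFun_ev]
    have := (ENNReal.tendsto_toReal ENNReal.one_ne_top).comp hr
    rw [ENNReal.toReal_one] at this
    exact this

end Pool.Agent.Helper54Exc
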