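import Pool.Agent.Helper28_Excl.NoState

/-! Coalescence functions for the exclusion process: definitions. -/

namespace Pool.Agent.Helper54Exc

open Filter Topology Pool.Agent.Helper28Excl

set_option linter.unusedSectionVars false
set_option linter.unusedVariables false

/-- Setting one site to a given value. -/
def upd (x : ℤ) (b : Bool) : C(Config, Config) :=
  ⟨fun η => Function.update η x b, continuous_id.update x continuous_const⟩

@[simp] lemma upd_apply (x : ℤ) (b : Bool) (η : Config) : upd x b η = Function.update η x b := rfl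

/-- Number of particles in the box `[-R, R]`. -/
noncomputable def pc (R : ℕ) : C(Config, ℝ) := ∑ x ∈ box R, ev x

/-- Half the number of discrepancies in the box `[-N, N]`. -/
noncomputable def Phi (N : ℕ) : C(Config × Config, ℝ) := (1 / 2 : ℝ) • cnt sd N

/-- The coalescence function: finite volume resolvent of the number of discrepancies. -/
noncomputable def V (k : Kern) (N : ℕ) (t : ℝ) : C(Config × Config, ℝ) := Rop XX k N t (Phi N)

/-- The resolvent of the number of particles in the window `[-R, R]`. -/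
noncomputable def hR (k : Kern) (R N : ℕ) (t : ℝ) : C(Config, ℝ) := Rop X k N t (pc R)

/-- The environment seen from side `c` (`c = true`: left side, the first configuration;
`c = false`: right side, the second configuration). -/
def bs (c : Bool) : C(Config × Config, Config) := if c then pfst else psnd

/-- The other configuration. -/
def ot (c : Bool) : C(Config × Config, Config) := if c then psnd else pfst

lemma ot_eq (c : Bool) : ot c = bs (!c) := by cases c <;> rfl

lemma bs_eq (c : Bool) : bs c = ot (!c) := by cases c <;> rfl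

/-- Indicator that the environment of side `c` has the value `!c` at `x`. -/
noncomputable def vac (c : Bool) (x : ℤ) : C(Config × Config, ℝ) :=
  if c then 1 - pull pfst (ev x) else pull psnd (ev x)

/-- The sign of a side. -/
noncomputable def sgn (c : Bool) : ℝ := if c then 1 else -1

/-- Probability that the discrepancy created at `x` (on side `c`) has not annihilated with the
stationary one. -/
noncomputable def Q (k : Kern) (c : Bool) (N : ℕ) (t : ℝ) (x : ℤ) : C(Config × Config, ℝ) :=
  vac c x * (V k N t).comp (((upd x c).comp (bs c)).prodMk (ot c))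

/-- The jump used on side `c`, with source `σ` and target `τ`. -/
def jc (c : Bool) (σ τ : ℤ) : C(Config, Config) := if c then X.T σ τ else X.T τ σ

/-- Sites of side `c` at scale `n`. -/
noncomputable def Sc (c : Bool) (n : ℕ) : Finset ℤ :=
  if c then Finset.Icc (-(2 * n : ℤ)) (-(n : ℤ)) else Finset.Icc (n : ℤ) (2 * n : ℤ)

/-- In the box `[-N, N]` the configuration `o` differs from `β` exactly at `D`, with values
`β D = !c` and `o D = c`. -/
def One (N : ℕ) (c : Bool) (D : ℤ) (β o : Config) : Prop :=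
  D ∈ box N ∧ β D = !c ∧ o D = c ∧ ∀ x ∈ box N, x ≠ D → β x = o x

/-- The tent function. -/
noncomputable def tn (ℓ : ℝ) (n : ℤ) : ℝ := max 0 (1 - |(n : ℝ)| / ℓ)

/-- Penalty for exceptional pairs. -/
noncomputable def Bd (R N : ℕ) : C(Config × Config, ℝ) :=
  kap R + (8 : ℝ) • exc N + (8 : ℝ) • ∑ x ∈ box N, site sm x

/-! ### Generic facts on resolvents -/

section generic

variable {Z : Type*} [TopologicalSpace Z] [CompactSpace Z] (J : JumpSys Z) (k : Kern)

lemma Rop_sub (N : ℕ) {t : ℝ} (ht : 0 ≤ t) (f g : C(Z, ℝ)) :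
    Rop J k N t (f - g) = Rop J k N t f - Rop J k N t g := by
  have h := (Ropl J k N ht).map_sub f g
  exact h

lemma Rop_sum (N : ℕ) {t : ℝ} (ht : 0 ≤ t) {ι : Type*} (S : Finset ι) (f : ι → C(Z, ℝ)) :
    Rop J k N t (∑ i ∈ S, f i) = ∑ i ∈ S, Rop J k N t (f i) := by
  have h := map_sum (Ropl J k N ht) f S
  exact h

/-- The resolvent is positive on invariant sets. -/
lemma Rop_nonneg_on {N : ℕ} {t : ℝ} (ht : 0 ≤ t) {A : Set Z}
    (hA : ∀ u ∈ box N, ∀ v ∈ box N, ∀ z ∈ A, J.T u v z ∈ A) {g : C(Z, ℝ)}
    (hg : ∀ z ∈ A, 0 ≤ g z) : ∀ z ∈ A, 0 ≤ Rop J k N t g z := by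
  have hS : IsClosed {s : C(Z, ℝ) | ∀ z ∈ A, 0 ≤ s z} := by
    have : {s : C(Z, ℝ) | ∀ z ∈ A, 0 ≤ s z} = ⋂ z, ⋂ (_ : z ∈ A), {s : C(Z, ℝ) | 0 ≤ s z} := by
      ext s
      simp only [Set.mem_ofPred_eq, Set.mem_iInter]
    rw [this]
    exact isClosed_iInter fun z => isClosed_iInter fun _ =>
      isClosed_le continuous_const (continuous_ev z)
  refine Rop_mem J k hS N ht g (fun z _ => le_rfl) fun s hs z hz => ?_
  simp only [ContinuousMap.smul_apply, ContinuousMap.add_apply, smul_eq_mul]
  refine mul_nonneg (alph_pos k N ht).le (add_nonneg (hg z hz) (mul_nonneg ht ?_))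
  rw [Aop_apply]
  refine Finset.sum_nonneg fun q hq => mul_nonneg (k.nonneg _) (hs _ ?_)
  rw [Finset.mem_product] at hq
  exact hA _ hq.1 _ hq.2 z hz

/-- The resolvent is monotone on invariant sets. -/
lemma Rop_mono_on {N : ℕ} {t : ℝ} (ht : 0 ≤ t) {A : Set Z}
    (hA : ∀ u ∈ box N, ∀ v ∈ box N, ∀ z ∈ A, J.T u v z ∈ A) {f g : C(Z, ℝ)}
    (hg : ∀ z ∈ A, f z ≤ g z) {z : Z} (hz : z ∈ A) : Rop J k N t f z ≤ Rop J k N t g z := by
  have h := Rop_nonneg_on J k ht hA (g := g - f) (fun z hz => by
    rw [ContinuousMap.sub_apply]; linarith [hg z hz]) z hz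
  rw [Rop_sub J k N ht, ContinuousMap.sub_apply] at h
  linarith

lemma Rop_mono {N : ℕ} {t : ℝ} (ht : 0 ≤ t) {f g : C(Z, ℝ)} (hg : ∀ z, f z ≤ g z) (z : Z) :
    Rop J k N t f z ≤ Rop J k N t g z :=
  Rop_mono_on J k ht (A := Set.univ) (fun _ _ _ _ _ _ => trivial) (fun z _ => hg z) trivial

/-- If the generator decreases `g` then so does the resolvent. -/
lemma Rop_le_self {N : ℕ} {t : ℝ} (ht : 0 ≤ t) {g : C(Z, ℝ)} (hg : ∀ z, LN J k N g z ≤ 0) (z : Z) :
    Rop J k N t g z ≤ g z := by
  have h1 : Rop J k N t g - t • LN J k N (Rop J k N t g) = g := by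
    rw [← Rop_eq J k N ht g]; abel
  have h2 : Rop J k N t (g - t • LN J k N g) = g := by
    rw [Rop_sub J k N ht, Rop_smul, Rop_LN J k N ht]
    exact h1
  have h3 := Rop_mono J k (N := N) ht (f := g) (g := g - t • LN J k N g) (fun z => by
    rw [ContinuousMap.sub_apply, ContinuousMap.smul_apply, smul_eq_mul]
    nlinarith [hg z]) z
  rwa [h2] at h3

/-- The resolvent is decreasing in time on functions decreased by the generator. -/
lemma Rop_anti {N : ℕ} {s t : ℝ} (hs : 0 ≤ s) (hst : s ≤ t) {g : C(Z, ℝ)}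
    (hg : ∀ z, LN J k N g z ≤ 0) (z : Z) : Rop J k N t g z ≤ Rop J k N s g z := by
  have ht : 0 ≤ t := hs.trans hst
  rcases eq_or_lt_of_le ht with h0 | h0
  · have : s = t := le_antisymm hst (h0 ▸ hs)
    rw [this]
  set r := Rop J k N t g with hr
  have hle : ∀ z, r z ≤ g z := Rop_le_self J k ht hg
  have h1 : Rop J k N s (r - s • LN J k N r) = r := by
    rw [Rop_sub J k N hs, Rop_smul, Rop_LN J k N hs]
    have := Rop_eq J k N hs r
    rw [← this]; abel
  have h2 : LN J k N r = (1 / t) • (r - g) := by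
    have := Rop_eq J k N ht g
    rw [← hr] at this
    rw [this, smul_smul]
    have : 1 / t * t = 1 := by field_simp
    rw [this, one_smul]
  have h3 := Rop_mono J k (N := N) hs (f := r - s • LN J k N r) (g := g) (fun z => by
    rw [h2]
    simp only [ContinuousMap.sub_apply, ContinuousMap.smul_apply, smul_eq_mul]
    have h4 := hle z
    have h5 : s * (1 / t * (r z - g z)) = (s / t) * (r z - g z) := by ring
    rw [h5]
    have h6 : s / t ≤ 1 := by rw [div_le_one h0]; exact hst
    nlinarith) z
  rwa [h1] at h3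

end generic

end Pool.Agent.Helper54Exc
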